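import Mathlib

/-! Project NA: fractional parts of `n^2 α` (definitions and statements of the parts). -/

set_option autoImplicit false

open MeasureTheory Filter Topology

namespace Pool.Agent.Q80.NA

/-- `α` is of type `κ` -/
def OfType (κ α : ℝ) : Prop :=
  ∃ C : ℝ, 0 < C ∧ ∀ (a : ℤ) (q : ℕ), 1 ≤ q → IsCoprime a (q : ℤ) →
    C * (q : ℝ) ^ (-κ) ≤ |α - (a : ℝ) / (q : ℝ)|

/-- the `(l+1)`-level correlation of `{n^2 α}`, `1 ≤ n ≤ N` -/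
noncomputable def R (α : ℝ) (l : ℕ) (f : (Fin l → ℝ) → ℝ) (N : ℕ) : ℝ :=
  (1 / (N : ℝ)) *
    ∑ n ∈ (Fintype.piFinset fun _ : Fin (l + 1) => Finset.Icc 1 N).filter
        (fun n => Function.Injective n),
      ∑' m : Fin l → ℤ, f (fun i => (N : ℝ) *
        (Int.fract (((n i.castSucc : ℕ) : ℝ) ^ 2 * α) - Int.fract (((n i.succ : ℕ) : ℝ) ^ 2 * α)
          + (m i : ℝ)))

/-- the exponents -/
def u : ℕ → ℕ
  | 0 => 5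
  | n + 1 => 5 * u n / 2

/-- the number -/
noncomputable def α₀ : ℝ := ∑' n, 1 / (4 : ℝ) ^ u n

/-- numerators of the partial sums -/
def num (n : ℕ) : ℕ := ∑ i ∈ Finset.range (n + 1), 4 ^ (u n - u i)

/-- `12 u_n ≤ 5 u_(n+1)`, `2 u_(n+1) ≤ 5 u_n`, `n + 5 ≤ u_n`, and the partial sums. -/
def J_SEQ : Prop :=
  (∀ n, 12 * u n ≤ 5 * u (n + 1) ∧ 2 * u (n + 1) ≤ 5 * u n ∧ n + 5 ≤ u n ∧ u n < u (n + 1)) ∧
  (∀ n, IsCoprime ((num n : ℕ) : ℤ) ((4 ^ u n : ℕ) : ℤ)) ∧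
  ∀ n, 1 / (4 : ℝ) ^ u (n + 1) ≤ α₀ - (num n : ℝ) / (4 : ℝ) ^ u n ∧
    α₀ - (num n : ℝ) / (4 : ℝ) ^ u n ≤ 2 / (4 : ℝ) ^ u (n + 1)

/-- Given `a/b` in lowest terms, `b ≥ 1`.  If `b < 4^(u 1 - u 0) / 4` the claim follows from
irrationality (finitely many `b`; or treat all at once).  Otherwise choose `n ≥ 1` maximal with
`4^(u n) / (4 * 4^(u (n-1))) ≤ b`, so `b < 4^(u (n+1)) / (4 * 4^(u n))`.  If `a/b = num n / 4^(u n)`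
then `b = 4^(u n)` and `|α - a/b| ≥ 4^(-u (n+1)) ≥ b^(-5/2)`.  If not,
`|α - a/b| ≥ 1/(b 4^(u n)) - 2/4^(u (n+1)) ≥ 1/(2 b 4^(u n))`, and
`4^(u n) = (4^(u n))^(12/7) (4^(u n))^(-5/7) ≤ (4^(u n - u (n-1)))^(12/7) ≤ (4b)^(12/7)` because
`u n - u (n-1) ≥ (7/12) u n`; `1 + 12/7 < 11/4`. -/
def J_TYP : Prop := J_SEQ → Irrational α₀ ∧ OfType (11 / 4) α₀

/-- The clusters: with `s = u n`, `N = 2^w`, `w = (31 * s) / 20`, the integers `j 2^s ≤ N` have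
`(j 2^s)^2 α = j^2 num n + j^2 4^s η`, `0 ≤ j^2 4^s η ≤ N^2 η`, `N^3 η → 0`, and their number is
`2^(w-s)`; `2^(3(w-s)) / 2^w → ∞`. -/
def J_CLU : Prop := J_SEQ → ∀ (l : ℕ), 2 ≤ l → ∀ f : (Fin l → ℝ) → ℝ, Continuous f →
  HasCompactSupport f → (∀ x, 0 ≤ f x) → 0 < f 0 → ¬ BddAbove (Set.range (R α₀ l f))

end Pool.Agent.Q80.NA
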