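import Mathlib
import Pool.Agent.Q80.NA.Stm

set_option autoImplicit false

open MeasureTheory Filter Topology

namespace Pool.Agent.Q80.NA

theorem u_ge (n : ℕ) : n + 5 ≤ u n := by
  induction n with
  | zero => simp [u]
  | succ n ih => simp only [u]; omega

theorem u_succ (n : ℕ) : u (n + 1) = 5 * u n / 2 := rfl

theorem u_lt (n : ℕ) : u n < u (n + 1) := by
  have := u_ge n
  rw [u_succ]; omega

theorem u_basic (n : ℕ) :
    12 * u n ≤ 5 * u (n + 1) ∧ 2 * u (n + 1) ≤ 5 * u n ∧ n + 5 ≤ u n ∧ u n < u (n + 1) := by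
  have h := u_ge n
  refine ⟨?_, ?_, h, u_lt n⟩
  · rw [u_succ]; omega
  · rw [u_succ]; omega

theorem u_mono : StrictMono u := strictMono_nat_of_lt_succ u_lt

theorem u_add (n k : ℕ) : u n + k ≤ u (n + k) := by
  induction k with
  | zero => simp
  | succ k ih => have := u_lt (n + k); rw [← add_assoc, ← add_assoc]; omega

theorem num_mod (n : ℕ) : num n % 4 = 1 := by
  unfold num
  rw [Finset.sum_range_succ, Nat.sub_self, pow_zero]
  have : 4 ∣ ∑ i ∈ Finset.range n, 4 ^ (u n - u i) := by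
    apply Finset.dvd_sum
    intro i hi
    have h := u_mono (Finset.mem_range.mp hi)
    exact dvd_pow_self 4 (by omega)
  omega

theorem num_cop (n : ℕ) : IsCoprime ((num n : ℕ) : ℤ) ((4 ^ u n : ℕ) : ℤ) := by
  rw [Nat.isCoprime_iff_coprime]
  apply Nat.Coprime.pow_right
  have h := num_mod n
  have h2 : Nat.Coprime (num n) 2 := by
    rw [Nat.coprime_comm, Nat.coprime_two_left, Nat.odd_iff]
    omega
  have : Nat.Coprime (num n) (2 ^ 2) := Nat.Coprime.pow_right 2 h2
  simpa using this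

theorem num_div (n : ℕ) :
    (num n : ℝ) / (4 : ℝ) ^ u n = ∑ i ∈ Finset.range (n + 1), 1 / (4 : ℝ) ^ u i := by
  unfold num
  push_cast
  rw [Finset.sum_div]
  apply Finset.sum_congr rfl
  intro i hi
  have h : u i ≤ u n := u_mono.monotone (by have := Finset.mem_range.mp hi; omega)
  rw [pow_sub₀ _ (by norm_num) h]
  field_simp

theorem summ : Summable (fun n => 1 / (4 : ℝ) ^ u n) := by
  have hg : Summable (fun n : ℕ => (1 / 4 : ℝ) ^ n) :=
    summable_geometric_of_lt_one (by norm_num) (by norm_num)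
  refine Summable.of_nonneg_of_le (fun n => by positivity) (fun n => ?_) hg
  rw [one_div_pow]
  apply one_div_le_one_div_of_le (by positivity)
  exact pow_le_pow_right₀ (by norm_num) (by have := u_ge n; omega)

theorem tail_eq (n : ℕ) : α₀ - (num n : ℝ) / (4 : ℝ) ^ u n
    = ∑' i, 1 / (4 : ℝ) ^ u (i + (n + 1)) := by
  rw [num_div]
  unfold α₀
  rw [← summ.sum_add_tsum_nat_add (n + 1)]
  ring

theorem tail_lo (n : ℕ) :
    1 / (4 : ℝ) ^ u (n + 1) ≤ ∑' i, 1 / (4 : ℝ) ^ u (i + (n + 1)) := by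
  have hs : Summable (fun i => 1 / (4 : ℝ) ^ u (i + (n + 1))) :=
    (summable_nat_add_iff (n + 1)).mpr summ
  have := hs.le_tsum 0 (fun i _ => by positivity)
  simpa using this

theorem tail_hi (n : ℕ) :
    ∑' i, 1 / (4 : ℝ) ^ u (i + (n + 1)) ≤ 2 / (4 : ℝ) ^ u (n + 1) := by
  have hs : Summable (fun i => 1 / (4 : ℝ) ^ u (i + (n + 1))) :=
    (summable_nat_add_iff (n + 1)).mpr summ
  have hg : HasSum (fun i : ℕ => (1 / (4 : ℝ) ^ u (n + 1)) * (1 / 4 : ℝ) ^ i)
      ((1 / (4 : ℝ) ^ u (n + 1)) * (1 - 1 / 4)⁻¹) :=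
    (hasSum_geometric_of_lt_one (by norm_num) (by norm_num)).mul_left _
  have h1 : ∑' i, 1 / (4 : ℝ) ^ u (i + (n + 1)) ≤
      (1 / (4 : ℝ) ^ u (n + 1)) * (1 - 1 / 4)⁻¹ := by
    refine hasSum_le (fun i => ?_) hs.hasSum hg
    rw [one_div_pow, one_div_mul_one_div, ← pow_add]
    apply one_div_le_one_div_of_le (by positivity)
    apply pow_le_pow_right₀ (by norm_num)
    have := u_add (n + 1) i
    rw [add_comm i (n + 1)]
    exact this
  refine h1.trans ?_
  have hp : (0 : ℝ) < (4 : ℝ) ^ u (n + 1) := by positivity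
  rw [div_mul_eq_mul_div, one_mul]
  apply div_le_div_of_nonneg_right _ hp.le
  norm_num

theorem t_SEQ : J_SEQ := by
  refine ⟨u_basic, num_cop, fun n => ?_⟩
  rw [tail_eq]
  exact ⟨tail_lo n, tail_hi n⟩

end Pool.Agent.Q80.NA
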